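import Pool.Agent.H.MP_1dc069_an.A

set_option autoImplicit false
open Set Filter Topology BoundedContinuousFunction
open scoped ContDiff

namespace Pool.Agent.H.MP_ffb385_an

open Pool.Agent.H.MP_1dc069_an

/-- unnormalised bump -/
noncomputable def q (j : ℕ) (x : ℝ) : ℝ :=
  expNegInvGlue (x - 1 / (2 * j + 3)) * expNegInvGlue (1 / (2 * j + 2) - x)

/-- peak point -/
noncomputable def m (j : ℕ) : ℝ := 1 / (2 * j + 5 / 2)

/-- normalised bump -/
noncomputable def p (j : ℕ) (x : ℝ) : ℝ := q j x / q j (m j)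

theorem m_mem (j : ℕ) : 1 / (2 * j + 3) < m j ∧ m j < 1 / (2 * j + 2) := by
  have := j.cast_nonneg (α := ℝ)
  constructor <;> exact one_div_lt_one_div_of_lt (by positivity) (by linarith)

theorem b_le (j : ℕ) : (1 : ℝ) / (2 * j + 1) ≤ 1 ∧ (1 : ℝ) / (2 * j + 2) < 1 / (2 * j + 1) := by
  have := j.cast_nonneg (α := ℝ)
  exact ⟨by rw [div_le_one (by positivity)]; linarith,
    one_div_lt_one_div_of_lt (by positivity) (by linarith)⟩

theorem m_I (j : ℕ) : m j ∈ Icc (0 : ℝ) 1 :=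
  ⟨by unfold m; positivity, by linarith [(m_mem j).2, (b_le j).1, (b_le j).2]⟩

theorem p_m (j : ℕ) : p j (m j) = 1 := div_self (mul_pos
  (expNegInvGlue.pos_of_pos (sub_pos.2 (m_mem j).1))
  (expNegInvGlue.pos_of_pos (sub_pos.2 (m_mem j).2))).ne'

theorem p_smooth (j : ℕ) : ContDiff ℝ ∞ (p j) := by
  unfold p q
  exact ((expNegInvGlue.contDiff.comp (by fun_prop)).mul
    (expNegInvGlue.contDiff.comp (by fun_prop))).div_const _

theorem recip {x c d : ℝ} (hc : 0 < c) (hd : 0 < d) (h : 1 / d < x ∧ x < 1 / c) :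
    c < 1 / x ∧ 1 / x < d := by
  have hx : 0 < x := lt_trans (by positivity) h.1
  exact ⟨(lt_one_div hx hc).1 h.2, (one_div_lt hd hx).1 h.1⟩

theorem supp {j : ℕ} {x : ℝ} (h : p j x ≠ 0) : 2 * j + 2 < 1 / x ∧ 1 / x < 2 * j + 3 := by
  refine recip (by positivity) (by positivity) ?_
  have h1 : q j x ≠ 0 := fun e => h (by rw [p, e, zero_div])
  simp only [q, mul_ne_zero_iff, ne_eq, expNegInvGlue.zero_iff_nonpos, not_le, sub_pos] at h1
  exact h1

theorem other {i j : ℕ} {x : ℝ} (h : 2 * j + 1 ≤ 1 / x ∧ 1 / x ≤ 2 * j + 3) (hij : i ≠ j) :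
    p i x = 0 := by
  by_contra hn
  have h1 := supp hn
  have a1 : (2 * i + 2 : ℝ) < 2 * j + 3 := by linarith [h1.1, h.2]
  have a2 : (2 * j + 1 : ℝ) < 2 * i + 3 := by linarith [h1.2, h.1]
  norm_cast at a1 a2
  omega

theorem loc (x : ℝ) : ∃ j, ∀ i ≠ j, p i x = 0 := by
  by_cases h : ∃ j, p j x ≠ 0
  · obtain ⟨j, hj⟩ := h
    exact ⟨j, fun i hi => other ⟨by linarith [(supp hj).1], (supp hj).2.le⟩ hi⟩
  · push Not at h
    exact ⟨0, fun i _ => h i⟩

/-- pilot part -/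
noncomputable def PL (g : ℕ →ᵇ ℝ) (x : ℝ) : ℝ := ∑' j, g j * p j x

theorem PL_eq (g : ℕ →ᵇ ℝ) {x : ℝ} {j : ℕ} (h : ∀ i ≠ j, p i x = 0) : PL g x = g j * p j x :=
  tsum_eq_single j fun i hi => by rw [h i hi, mul_zero]

/-- oscillating part -/
noncomputable def Q (g : ℕ →ᵇ ℝ) (k : ℕ) (x : ℝ) : ℝ := D (fun n => g n.unpair.1) k x

theorem Q_le (g : ℕ →ᵇ ℝ) (x : ℝ) : |Q g 0 x| ≤ 2 * ‖g‖ := by
  rw [← Real.norm_eq_abs, mul_comm]
  refine tsum_of_norm_bounded (hasSum_geometric_two.mul_left ‖g‖) fun n => ?_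
  refine (term_le (fun n => g.norm_coe_le_norm _) 0 n x).trans
    (mul_le_mul_of_nonneg_left ?_ (norm_nonneg _))
  rcases n with _ | n
  · simp
  · exact ratio_le (by omega)

/-- the embedding -/
noncomputable def T : (ℕ →ᵇ ℝ) →ₗ[ℝ] (ℝ → ℝ) where
  toFun g x := PL g x + 1 / 4 * Q g 0 x
  map_add' g h := by
    ext x
    obtain ⟨j, hj⟩ := loc x
    have : Q (g + h) 0 x = Q g 0 x + Q h 0 x := congrFun ((L univ).map_add g h) ⟨x, trivial⟩
    simp only [Pi.add_apply, PL_eq _ hj, this, coe_add]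
    ring
  map_smul' a g := by
    ext x
    obtain ⟨j, hj⟩ := loc x
    have : Q (a • g) 0 x = a * Q g 0 x := congrFun ((L univ).map_smul a g) ⟨x, trivial⟩
    simp only [Pi.smul_apply, PL_eq _ hj, this, coe_smul, smul_eq_mul, RingHom.id_apply]
    ring

theorem T_def (g : ℕ →ᵇ ℝ) (x : ℝ) : T g x = PL g x + 1 / 4 * Q g 0 x := rfl

theorem lower (g : ℕ →ᵇ ℝ) {δ : ℝ} (h : ∀ x ∈ Icc (0 : ℝ) 1, |T g x| ≤ δ) : ‖g‖ ≤ 2 * δ := by
  have h0 := (abs_nonneg _).trans (h 0 (by simp))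
  have : ‖g‖ ≤ δ + ‖g‖ / 2 := (norm_le (by positivity)).2 fun j => by
    have a1 := abs_le.1 (h _ (m_I j))
    have a2 := abs_le.1 (Q_le g (m j))
    have a3 := supp (j := j) (x := m j) (by rw [p_m]; exact one_ne_zero)
    rw [T_def, PL_eq g fun i hi => other ⟨by linarith [a3.1], a3.2.le⟩ hi, p_m] at a1
    rw [Real.norm_eq_abs, abs_le]
    constructor <;> linarith [a1.1, a1.2, a2.1, a2.2]
  linarith

theorem T_cont (x : ℝ) : Continuous fun g => T g x := by
  obtain ⟨j, hj⟩ := loc x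
  refine AddMonoidHomClass.continuous_of_bound ((LinearMap.proj x).comp T) (|p j x| + 1) fun g => ?_
  change |T g x| ≤ _
  have a1 := Q_le g x
  have a2 := mul_le_mul_of_nonneg_left (g.norm_coe_le_norm j) (abs_nonneg (p j x))
  have a3 := abs_add_le (g j * p j x) (1 / 4 * Q g 0 x)
  rw [abs_mul, abs_mul, abs_of_pos (show (0 : ℝ) < 1 / 4 by norm_num)] at a3
  rw [T_def, PL_eq g hj]
  rw [Real.norm_eq_abs] at a2
  linarith [norm_nonneg g]

theorem closed (g : ℕ → ℕ →ᵇ ℝ) (F : ℝ → ℝ)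
    (h : TendstoUniformlyOn (fun k => T (g k)) F atTop (Icc 0 1)) :
    ∃ g0, ∀ x ∈ Icc (0 : ℝ) 1, F x = T g0 x := by
  have hc : CauchySeq g := by
    rw [Metric.cauchySeq_iff]
    intro ε hε
    obtain ⟨N, hN⟩ := eventually_atTop.1 (Metric.tendstoUniformlyOn_iff.1 h (ε / 8) (by positivity))
    refine ⟨N, fun k hk l hl => ?_⟩
    have := lower (g k - g l) (δ := ε / 4) fun x hx => by
      have a1 := hN k hk x hx
      have a2 := hN l hl x hx
      rw [Real.dist_eq, abs_lt] at a1 a2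
      rw [map_sub, Pi.sub_apply, abs_le]
      constructor <;> linarith [a1.1, a1.2, a2.1, a2.2]
    rw [dist_eq_norm]
    linarith
  obtain ⟨g0, h0⟩ := cauchySeq_tendsto_of_complete hc
  exact ⟨g0, fun x hx => tendsto_nhds_unique (h.tendsto_at hx) (((T_cont x).tendsto g0).comp h0)⟩

theorem uI : UniqueDiffOn ℝ (Icc (0 : ℝ) 1) := uniqueDiffOn_Icc one_pos

theorem tb (g : ℕ →ᵇ ℝ) {P : ℝ → ℝ} (hP : ContDiffOn ℝ ∞ P (Icc 0 1))
    (e : ∀ x ∈ Icc (0 : ℝ) 1, P x = PL g x) {x : ℝ} (hx : x ∈ Icc (0 : ℝ) 1) :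
    ∃ r > 0, ∃ C, ∀ k, |iteratedDerivWithin k P (Icc 0 1) x / k.factorial| * r ^ k ≤ C := by
  by_cases h : ∃ j : ℕ, 1 / (2 * j + 3 : ℝ) < x ∧ x < 1 / (2 * j + 2)
  · obtain ⟨j, hj⟩ := h
    have sub : Ioo (1 / (2 * j + 3 : ℝ)) (1 / (2 * j + 2)) ⊆ Icc 0 1 := fun y hy =>
      ⟨le_trans (by positivity) hy.1.le, by linarith [hy.2, (b_le j).1, (b_le j).2]⟩
    have a1 : AnalyticAt ℝ (fun y : ℝ => g j * (Real.exp (-(y - 1 / (2 * j + 3))⁻¹) *
        Real.exp (-(1 / (2 * j + 2) - y)⁻¹) / q j (m j))) x := by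
      have b1 := (sub_pos.2 hj.1).ne'
      have b2 := (sub_pos.2 hj.2).ne'
      simp only [div_eq_mul_inv _ (q j (m j))]
      exact analyticAt_const.mul ((((analyticAt_id.sub analyticAt_const).inv b1).neg.rexp.mul
        ((analyticAt_const.sub analyticAt_id).inv b2).neg.rexp).mul analyticAt_const)
    have a2 : AnalyticAt ℝ P x := a1.congr (by
      filter_upwards [Ioo_mem_nhds hj.1 hj.2] with y hy
      have b1 := recip (by positivity) (by positivity) hy
      rw [e y (sub hy), PL_eq g fun i hi => other ⟨by linarith [b1.1], b1.2.le⟩ hi]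
      simp only [p, q, expNegInvGlue, if_neg (not_le.2 (sub_pos.2 hy.1)),
        if_neg (not_le.2 (sub_pos.2 hy.2))])
    obtain ⟨r, hr0, hr⟩ := ENNReal.lt_iff_exists_nnreal_btwn.1 a2.hasFPowerSeriesAt.radius_pos
    obtain ⟨K, -, hK⟩ := FormalMultilinearSeries.norm_mul_pow_le_of_lt_radius _ hr
    refine ⟨r, by exact_mod_cast hr0, K, fun k => ?_⟩
    have := hK k
    rwa [FormalMultilinearSeries.ofScalars_norm, Real.norm_eq_abs,
      ← iteratedDerivWithin_eq_iteratedDeriv uI a2.contDiffAt hx] at this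
  refine ⟨1, one_pos, 0, fun k => ?_⟩
  obtain ⟨O, hO⟩ : ∃ O : Set ℝ, O = ⋃ j : ℕ, Ioo (1 / (2 * j + 2 : ℝ)) (1 / (2 * j + 1)) := ⟨_, rfl⟩
  have sub : ∀ j : ℕ, Ioo (1 / (2 * j + 2 : ℝ)) (1 / (2 * j + 1)) ⊆ Icc 0 1 := fun j y hy =>
    ⟨le_trans (by positivity) hy.1.le, by linarith [hy.2, (b_le j).1]⟩
  have z : ∀ y ∈ O, iteratedDerivWithin k P (Icc 0 1) y = 0 := by
    intro y hy
    rw [hO] at hy
    obtain ⟨j, hj⟩ := mem_iUnion.1 hy
    have : P =ᶠ[𝓝 y] fun _ => 0 := by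
      filter_upwards [Ioo_mem_nhds hj.1 hj.2] with w hw
      have b1 := recip (by positivity) (by positivity) hw
      have b2 : p j w = 0 := by
        by_contra hn
        linarith [(supp hn).1, b1.2]
      rw [e w (sub j hw), PL_eq g fun i hi => other ⟨b1.1.le, by linarith [b1.2]⟩ hi, b2, mul_zero]
    rw [iteratedDerivWithin_eq_iteratedDeriv uI (contDiffAt_const.congr_of_eventuallyEq this)
      (sub j hj), this.iteratedDeriv_eq]
    simp
  have cl : x ∈ closure O := by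
    rcases hx.1.eq_or_lt with rfl | x0
    · rw [Metric.mem_closure_iff]
      intro ε hε
      obtain ⟨j, hj⟩ := exists_nat_one_div_lt hε
      obtain ⟨y, hy⟩ := nonempty_Ioo.2 (b_le j).2
      refine ⟨y, by rw [hO]; exact mem_iUnion.2 ⟨j, hy⟩, ?_⟩
      rw [dist_zero_left, Real.norm_eq_abs, abs_of_nonneg (sub j hy).1]
      refine hy.2.trans_le (le_trans ?_ hj.le)
      exact one_div_le_one_div_of_le (by positivity) (by linarith [j.cast_nonneg (α := ℝ)])
    · obtain ⟨j, hj⟩ : ∃ j, j = ⌊(1 / x - 1) / 2⌋₊ := ⟨_, rfl⟩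
      have b0 : 1 ≤ 1 / x := by rw [le_div_iff₀ x0]; linarith [hx.2]
      have b1 := Nat.floor_le (show 0 ≤ (1 / x - 1) / 2 by linarith)
      have b2 := Nat.lt_floor_add_one ((1 / x - 1) / 2)
      rw [← hj] at b1 b2
      have b3 : 1 / (2 * j + 2 : ℝ) ≤ x := by
        by_contra hn
        exact h ⟨j, (one_div_lt x0 (by positivity)).1 (by linarith), not_le.1 hn⟩
      have b4 : x ≤ 1 / (2 * j + 1 : ℝ) := (le_one_div (by positivity) x0).1 (by linarith)
      have b5 : x ∈ closure (Ioo (1 / (2 * j + 2 : ℝ)) (1 / (2 * j + 1))) := by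
        rw [closure_Ioo (b_le j).2.ne]
        exact ⟨b3, b4⟩
      exact closure_mono (fun y hy => by rw [hO]; exact mem_iUnion.2 ⟨j, hy⟩) b5
  have := mem_closure_iff_nhdsWithin_neBot.1 cl
  have c := ((hP.continuousOn_iteratedDerivWithin (m := k) (by exact_mod_cast le_top) uI) x hx).mono
    (show O ⊆ _ by rw [hO]; exact iUnion_subset sub)
  have := tendsto_nhds_unique c.tendsto (tendsto_const_nhds.congr'
    (eventually_nhdsWithin_of_forall fun y hy => (z y hy).symm))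
  simp [this]

theorem Q_smooth (g : ℕ →ᵇ ℝ) : ContDiff ℝ ∞ (Q g 0) := smooth fun _ => g.norm_coe_le_norm _

theorem unb (g : ℕ →ᵇ ℝ) (hg : g ≠ 0) {F : ℝ → ℝ} (hF : ContDiffOn ℝ ∞ F (Icc 0 1))
    (e : ∀ x ∈ Icc (0 : ℝ) 1, F x = T g x) {x : ℝ} (hx : x ∈ Icc (0 : ℝ) 1) {r : ℝ} (hr : 0 < r)
    (K : ℝ) : ¬ ∀ k, |iteratedDerivWithin k F (Icc 0 1) x / k.factorial| * r ^ k ≤ K := by
  intro h
  have hQ : ContDiff ℝ ∞ fun y => 1 / 4 * Q g 0 y := contDiff_const.mul (Q_smooth g)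
  obtain ⟨s, s0, C, hC⟩ := tb g (P := F - fun y => 1 / 4 * Q g 0 y) (hF.sub hQ.contDiffOn)
    (fun y hy => by rw [Pi.sub_apply, e y hy, T_def]; ring) hx
  have hl := L_radius g hg x
  have := FormalMultilinearSeries.le_radius_of_bound
    (FormalMultilinearSeries.ofScalars ℝ fun k => Q g k x / k.factorial) (4 * (K + C))
    (r := ⟨min r s, (lt_min hr s0).le⟩) fun k => by
      have a1 := h k
      have a2 := hC k
      rw [iteratedDerivWithin_sub hx uI ((hF x hx).of_le (by exact_mod_cast le_top))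
        (hQ.of_le (by exact_mod_cast le_top)).contDiffAt.contDiffWithinAt,
        iteratedDerivWithin_eq_iteratedDeriv uI (hQ.of_le (by exact_mod_cast le_top)).contDiffAt hx,
        iteratedDeriv_const_mul_field] at a2
      have a3 : iteratedDeriv k (Q g 0) = Q g k := iter (fun _ => g.norm_coe_le_norm _) k
      rw [a3, sub_div, mul_div_assoc] at a2
      rw [FormalMultilinearSeries.ofScalars_norm, Real.norm_eq_abs]
      obtain ⟨u, hu⟩ : ∃ u, u = iteratedDerivWithin k F (Icc 0 1) x / k.factorial := ⟨_, rfl⟩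
      obtain ⟨v, hv⟩ : ∃ v, v = Q g k x / k.factorial := ⟨_, rfl⟩
      rw [← hu] at a1 a2
      rw [← hv] at a2 ⊢
      have b0 := (lt_min hr s0).le
      have b1 := mul_le_mul_of_nonneg_left (pow_le_pow_left₀ b0 (min_le_left r s) k) (abs_nonneg u)
      have b2 := mul_le_mul_of_nonneg_left (pow_le_pow_left₀ b0 (min_le_right r s) k)
        (abs_nonneg (u - 1 / 4 * v))
      have b3 : |v| ≤ 4 * (|u| + |u - 1 / 4 * v|) := by
        rw [abs_le]
        constructor <;> linarith [le_abs_self u, neg_abs_le u, le_abs_self (u - 1 / 4 * v),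
          neg_abs_le (u - 1 / 4 * v)]
      have b4 := mul_le_mul_of_nonneg_right b3 (pow_nonneg b0 k)
      change |v| * min r s ^ k ≤ _
      linarith
  unfold Q at this
  rw [hl, nonpos_iff_eq_zero, ENNReal.coe_eq_zero] at this
  exact (lt_min hr s0).ne' (congrArg NNReal.toReal this)

/-- unit vectors -/
noncomputable def ee (j : ℕ) : ℕ →ᵇ ℝ := ofNormedAddCommGroupDiscrete (Pi.single j 1) 1 fun n => by
  by_cases h : n = j <;> simp [h]

theorem ee_apply (j n : ℕ) : ee j n = (Pi.single j 1 : ℕ → ℝ) n := rfl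

theorem T_ee (j : ℕ) : ContDiff ℝ ∞ (T (ee j)) := by
  have : T (ee j) = fun x => p j x + 1 / 4 * Q (ee j) 0 x := by
    funext x
    rw [T_def, PL, tsum_eq_single j fun i hi => by simp [ee_apply, hi]]
    simp [ee_apply]
  rw [this]
  exact (p_smooth j).add (contDiff_const.mul (Q_smooth _))

theorem indep (s : Finset ℕ) (c : ℕ → ℝ) (h : ∀ x ∈ Icc (0 : ℝ) 1, ∑ i ∈ s, c i * T (ee i) x = 0) :
    ∀ i ∈ s, c i = 0 := by
  intro i hi
  have := lower (∑ i ∈ s, c i • ee i) (δ := 0) fun x hx => by simpa using h x hx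
  rw [mul_zero, norm_le_zero_iff] at this
  have := DFunLike.congr_fun this i
  simpa [ee_apply, Pi.single_apply, hi] using this

end Pool.Agent.H.MP_ffb385_an
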